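import Pool.Agent.Helper11.OscFinal

/-!
# Osculating hyperplanes: the constant in Vojta's height inequality

The pair is `(ℙⁿ × B, D)` where `D` consists of `s + 1` constant hyperplanes osculating the rational
normal curve, at `∞` and at `s` points `a_i ∈ k`. With `ℙⁿ \ H_∞ = {monic polynomials
X ^ n + ∑ f_j X ^ j}`, the hyperplane at `a` is `{a ^ n + ∑ f_j a ^ j = 0}`. For this pair
`h_{K+D}(P) = (s - n) h(f_0 : ⋯ : f_{n-1} : 1) / [L : F] + (2 g(B) - 2)`.
-/

set_option linter.unusedSectionVars false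

namespace Pool.Agent.Results.MP_4dacf8_ag.OsculatingHyperplanes

open Pool.Agent.Helper11 Polynomial

/-- The inequality of Q1 with the constant `C`, for some proper closed subset and some error term,
for the pair `(ℙⁿ, H_∞ + ∑ H_{a_i})` over `F`. -/
def VojtaHolds (k F : Type*) [Field k] [Field F] [Algebra k F] (n s : ℕ) (a : Fin s → k)
    (C : ℝ) : Prop :=
  ∃ (G : MvPolynomial (Fin n) F) (c : ℝ), G ≠ 0 ∧
    ∀ (L : IntermediateField F (AlgebraicClosure F)) [FiniteDimensional F L] (f : Fin n → L),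
      (∀ i, algebraMap k L (a i) ^ n + ∑ j, f j * algebraMap k L (a i) ^ (j : ℕ) ≠ 0) →
      MvPolynomial.aeval f G ≠ 0 →
      ((s : ℝ) - n) * (htP k (Fin.snoc f 1 : Fin (n + 1) → L) : ℝ) / Module.finrank F L +
          chi k F ≤
        C * ((chi k L : ℝ) / Module.finrank F L +
          ({v : Place k L | (∃ j, v.ord (f j) < 0) ∨ ∃ i, 0 < v.ord (algebraMap k L (a i) ^ n +
            ∑ j, f j * algebraMap k L (a i) ^ (j : ℕ))}.ncard : ℝ) / Module.finrank F L) + c

section aux

variable {k F L : Type*} [Field k] [Field F] [Field L] [Algebra k F] [Algebra k L] [Algebra F L]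
  [IsScalarTower k F L] [FunField k F] [FunField k L] [CharZero k] [IsAlgClosed k]
  [FiniteDimensional F L]

theorem chi_lower {t : F} (htr : Transcendental k t) :
    - (2 * ((Module.finrank F L : ℤ) * ht k t)) ≤ chi k L := by
  rw [← ht_ext (L := L)]
  exact neg_two_mul_ht_le_chi (transcendental_algebraMap htr)

theorem headsums_inj {n : ℕ} {a b : Fin n → ℕ}
    (h : ∀ i : Fin n, ∑ j : Fin n, (if (j : ℕ) + (n - 1 - i) < n then a j else 0) =
      ∑ j : Fin n, (if (j : ℕ) + (n - 1 - i) < n then b j else 0)) : a = b := by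
  classical
  have key : ∀ m : ℕ, ∀ i : Fin n, (i : ℕ) = m → a i = b i := by
    intro m
    induction m using Nat.strong_induction_on with
    | _ m ih =>
      intro i hi
      have h1 := h i
      have h2 : ∀ c : Fin n → ℕ,
          ∑ j : Fin n, (if (j : ℕ) + (n - 1 - i) < n then c j else 0) =
          c i + ∑ j ∈ Finset.univ.erase i, (if (j : ℕ) + (n - 1 - i) < n then c j else 0) := by
        intro c
        rw [← Finset.add_sum_erase _ _ (Finset.mem_univ i), if_pos (by have := i.2; omega)]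
      rw [h2, h2] at h1
      have h3 : ∑ j ∈ Finset.univ.erase i, (if (j : ℕ) + (n - 1 - i) < n then a j else 0) =
          ∑ j ∈ Finset.univ.erase i, (if (j : ℕ) + (n - 1 - i) < n then b j else 0) := by
        refine Finset.sum_congr rfl fun j hj => ?_
        have hne : j ≠ i := Finset.ne_of_mem_erase hj
        have hne' : (j : ℕ) ≠ i := fun h => hne (Fin.ext h)
        split_ifs with h4
        · exact ih j (by have := i.2; omega) j rfl
        · rfl
      omega
  funext i
  exact key i i rfl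

theorem coeff_prodPoly_mem (v : Place k L) (y : ℕ → L) (n : ℕ) (hy : ∀ j < n, y j ∈ v.ge 0) :
    ∀ i, (prodPoly y n).coeff i ∈ v.ge 0 := by
  induction n with
  | zero =>
    intro i
    have h1 : prodPoly y 0 = 1 := by simp [prodPoly]
    rw [h1, coeff_one]
    split_ifs
    · exact v.one_mem_ge
    · exact zero_mem _
  | succ n ih =>
    intro i
    have ih' := ih (fun j hj => hy j (by omega))
    have hm : ∀ j, y n * (prodPoly y n).coeff j ∈ v.ge 0 := by
      intro j
      have := v.mul_mem_ge (hy n (by omega)) (ih' j)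
      simpa using this
    rcases Nat.eq_zero_or_pos i with h0 | h0
    · rw [h0, prodPoly_succ, mul_coeff_zero, coeff_sub, coeff_X_zero, coeff_C_zero, zero_sub,
        neg_mul]
      exact neg_mem (hm 0)
    · obtain ⟨l, rfl⟩ : ∃ l, i = l + 1 := ⟨i - 1, by omega⟩
      rw [prodPoly_succ, coeff_mul_X_sub]
      exact sub_mem (ih' _) (hm _)

/-- if `x ^ q` is a unit different from one modulo `v` then `x` is different from the roots of
unity -/
theorem ord_const_sub (v : Place k L) {x : L} {q : ℕ} (hx : v.ord x = 0)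
    (h0 : 1 - x ^ q ≠ 0) (hx1 : v.ord (1 - x ^ q) = 0) {b : k} (hb : b = 0 ∨ b ^ q = 1)
    (hne : algebraMap k L b - x ≠ 0) : v.ord (algebraMap k L b - x) = 0 := by
  have hxm : x ∈ v.ge 0 := v.mem_ge_of_le hx.ge
  rcases hb with hb | hb
  · rw [hb, map_zero, zero_sub, v.ord_neg, hx]
  · have h1 := geom_sum₂_mul (algebraMap k L b) x q
    set g := ∑ i ∈ Finset.range q, algebraMap k L b ^ i * x ^ (q - 1 - i) with hg
    rw [← map_pow, hb, map_one] at h1
    have hgm : g ∈ v.ge 0 := by
      refine sum_mem fun i _ => ?_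
      have h2 := v.mul_mem_ge (v.pow_mem_ge (v.algebraMap_mem_ge b) i) (v.pow_mem_ge hxm (q - 1 - i))
      simpa using h2
    have hg0 : g ≠ 0 := by
      rintro h; rw [h, zero_mul] at h1; exact h0 h1.symm
    have h2 := congrArg v.ord h1
    rw [v.ord_mul _ _ hg0 hne, hx1] at h2
    have h3 := v.le_ord_of_mem hgm hg0
    have h4 := v.le_ord_of_mem (sub_mem (v.algebraMap_mem_ge b) hxm) hne
    omega

end aux

theorem upper (k F : Type*) [Field k] [IsAlgClosed k] [CharZero k] [Field F] [Algebra k F]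
    [FunField k F] {n s : ℕ} (hn : 1 ≤ n) (hs : 2 * n ≤ s) {a : Fin s → k}
    (ha : Function.Injective a) {C : ℝ} (hC : (n : ℝ) * (s - n) / (s + 1 - 2 * n) ≤ C) :
    VojtaHolds k F n s a C := by
  obtain ⟨t, htr⟩ := FunField.exists_transcendental (k := k) (L := F)
  have hht := ht_pos htr
  have hhtR : (0 : ℝ) < ht k t := by exact_mod_cast hht
  have hsR : (2 * n : ℝ) ≤ s := by exact_mod_cast hs
  have hnR : (1 : ℝ) ≤ n := by exact_mod_cast hn
  have hD0 : (0 : ℝ) < s + 1 - 2 * n := by linarith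
  have hC0 : 0 ≤ C := le_trans (by
    apply div_nonneg _ hD0.le
    apply mul_nonneg (by linarith)
    linarith) hC
  have hFchar : CharZero F := charZero_of_injective_algebraMap (algebraMap k F).injective
  refine ⟨discPoly F n, |(chi k F : ℝ)| + C * (2 * ht k t), discPoly_ne_zero F n, ?_⟩
  intro L hL f hH hG
  have hFL : FunField k L := FunField.of_finite (F := F)
  have hN0 : 0 < Module.finrank F L := Module.finrank_pos
  have hN : (0 : ℝ) < Module.finrank F L := by exact_mod_cast hN0
  set N : ℝ := ((Module.finrank F L : ℕ) : ℝ) with hNdef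
  set U : ℝ := ({v : Place k L | (∃ j, v.ord (f j) < 0) ∨ ∃ i, 0 < v.ord (algebraMap k L (a i) ^ n +
    ∑ j, f j * algebraMap k L (a i) ^ (j : ℕ))}.ncard : ℝ) with hU
  have hU0 : 0 ≤ U := by positivity
  have hchi : -(2 * (N * ht k t)) ≤ (chi k L : ℝ) := by
    have := chi_lower (L := L) htr
    rw [hNdef]
    exact_mod_cast this
  have hX : -(2 * (ht k t : ℝ)) ≤ (chi k L : ℝ) / N + U / N := by
    rw [← add_div, le_div_iff₀ hN]
    nlinarith
  have hchiF := le_abs_self (chi k F : ℝ)
  by_cases hconst : IsConstPt k (Fin.snoc f 1 : Fin (n + 1) → L)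
  · have hh : htP k (Fin.snoc f 1 : Fin (n + 1) → L) = 0 := by
      obtain ⟨c, q, hq⟩ := hconst
      have hmin : ∀ v : Place k L, v.minOrd (Fin.snoc f 1 : Fin (n + 1) → L) = 0 := by
        intro v
        have hlast := hq (Fin.last n)
        rw [Fin.snoc_last] at hlast
        have hc0 : c ≠ 0 := by rintro rfl; simp at hlast
        have hql : algebraMap k L (q (Fin.last n)) ≠ 0 := by
          intro h; rw [h, mul_zero] at hlast; exact one_ne_zero hlast
        have hcord : v.ord c = 0 := by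
          have h1 := congrArg v.ord hlast
          rw [v.ord_mul _ _ hc0 hql, v.ord_algebraMap, v.ord_one] at h1
          omega
        have hex : ∃ i, (Fin.snoc f 1 : Fin (n + 1) → L) i ≠ 0 :=
          ⟨Fin.last n, by rw [Fin.snoc_last]; exact one_ne_zero⟩
        obtain ⟨i, hi, h2⟩ := v.exists_minOrd _ hex
        rw [h2, hq i]
        rw [hq i] at hi
        have hqi : algebraMap k L (q i) ≠ 0 := right_ne_zero_of_mul hi
        rw [v.ord_mul _ _ hc0 hqi, hcord, v.ord_algebraMap, add_zero]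
      unfold htP
      rw [finsum_congr (g := fun _ => (0 : ℤ)) fun v => by rw [hmin v, neg_zero]]
      exact finsum_zero
    rw [hh]
    have h1 : C * -(2 * (ht k t : ℝ)) ≤ C * ((chi k L : ℝ) / N + U / N) :=
      mul_le_mul_of_nonneg_left hX hC0
    simp only [Int.cast_zero, mul_zero, zero_div, zero_add]
    linarith
  · have h1 := osc_upper (k := k) (L := L) (show 2 * n ≤ s + 1 by omega) ha
      (squarefree_of_discPoly hn hG) hconst hH
    have h0 := htP_nonneg (k := k) (Fin.snoc f 1 : Fin (n + 1) → L)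
    set h : ℝ := (htP k (Fin.snoc f 1 : Fin (n + 1) → L) : ℝ) with hh
    have h0' : 0 ≤ h := by rw [hh]; exact_mod_cast h0
    have h1' : ((s : ℝ) + 1 - 2 * n) * h ≤ n * ((chi k L : ℝ) + U) := by
      rw [hh, hU]; exact_mod_cast h1
    have hX0 : 0 ≤ (chi k L : ℝ) + U := by
      have h2 : 0 ≤ ((s : ℝ) + 1 - 2 * n) * h := mul_nonneg hD0.le h0'
      by_contra hcon
      push Not at hcon
      nlinarith
    have h2 : ((s : ℝ) - n) * h ≤ C * ((chi k L : ℝ) + U) := by
      have h3 : ((s : ℝ) - n) * h ≤ ((s : ℝ) - n) * (n * ((chi k L : ℝ) + U) / (s + 1 - 2 * n)) := by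
        apply mul_le_mul_of_nonneg_left _ (by linarith)
        rw [le_div_iff₀ hD0]
        linarith
      refine h3.trans (le_trans (le_of_eq ?_) (mul_le_mul_of_nonneg_right hC hX0))
      ring
    have h3 : ((s : ℝ) - n) * h / N ≤ C * ((chi k L : ℝ) / N + U / N) := by
      rw [← add_div, ← mul_div_assoc]
      exact div_le_div_of_nonneg_right h2 hN.le
    have h4 : 0 ≤ C * (2 * (ht k t : ℝ)) := by positivity
    linarith

theorem lower (k F : Type*) [Field k] [IsAlgClosed k] [CharZero k] [Field F] [Algebra k F]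
    [FunField k F] {n s : ℕ} (hn : 1 ≤ n) (hs : 2 * n ≤ s) {a : Fin s → k}
    (hA : ∀ x, (∃ i, a i = x) ↔ x = 0 ∨ x ^ (s - 1) = 1) {C : ℝ}
    (h : VojtaHolds k F n s a C) : (n : ℝ) * (s - n) / (s - 1) ≤ C := by
  classical
  obtain ⟨G, c, hG, hc⟩ := h
  obtain ⟨t, htr⟩ := FunField.exists_transcendental (k := k) (L := F)
  have hht := ht_pos htr
  by_contra hlt
  push Not at hlt
  set q : ℕ := s - 1 with hq
  have hq1 : 1 ≤ q := by omega
  have hqR : ((s : ℝ) - 1) = q := by rw [hq, Nat.cast_sub (by omega)]; simp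
  rw [hqR] at hlt
  have hq0 : (0 : ℝ) < q := by exact_mod_cast hq1
  have hsn : (0 : ℝ) < s - n := by
    have h1 : (2 * n : ℝ) ≤ s := by exact_mod_cast hs
    have h2 : (1 : ℝ) ≤ n := by exact_mod_cast hn
    linarith
  have hn0 : (0 : ℝ) < n := by exact_mod_cast hn
  -- constants
  obtain ⟨B, hB⟩ := exists_coeff_bound (k := k) G t
  set A : ℤ := ∑ᶠ v : Place k F, max 0 (v.ord (v.dv t)) * ht k v.unif with hAdef
  have hA0 : 0 ≤ A := fs_nonneg fun v => mul_nonneg (le_max_left _ _) (ht_nonneg _)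
  have hA0R : (0 : ℝ) ≤ A := by exact_mod_cast hA0
  set K : ℕ := G.totalDegree + 1 with hK
  have hdeg : ∀ a ∈ G.support, ∑ i, a i < 2 ^ K := by
    intro a ha
    have h1 : ∑ i, a i ≤ G.totalDegree := by
      have := MvPolynomial.le_totalDegree ha
      rwa [Finsupp.sum_fintype _ _ (fun _ => rfl)] at this
    calc ∑ i, a i ≤ G.totalDegree := h1
      _ < 2 ^ G.totalDegree := Nat.lt_two_pow_self
      _ ≤ 2 ^ K := Nat.pow_le_pow_right (by norm_num) (by omega)
  set m : ℕ := K * n with hm
  set C' : ℝ := max C 0 with hC'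
  have hC'n : C' < n * (s - n) / q := by
    rw [hC', max_lt_iff]
    exact ⟨hlt, by positivity⟩
  have hC'0 : 0 ≤ C' := le_max_right _ _
  obtain ⟨M₀, hM₀⟩ := exists_nat_gt
    ((C' * (A + 2 * ht k t) + |C| * (2 * ht k t) + c - chi k F) /
      (4 * (n * (s - n) / q - C') * ht k t))
  set M : ℕ := M₀ + q * 2 ^ m * (2 * B) + 1 with hM
  have hM1 : 1 ≤ M := by omega
  obtain ⟨L, hL, sq, y, T⟩ := exists_tower htr (M := M) (q := q) m hM1 hq1
  have hFL : FunField k L := FunField.of_finite (F := F)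
  have hstr := T.transcendental_s htr hM1
  have hhts := T.ht_s htr hM1
  set z : ℕ → L := fun j => y (K * (n - j)) with hz
  have hlev : ∀ j : ℕ, K * (n - j) ≤ m := fun j => Nat.mul_le_mul_left K (Nat.sub_le _ _)
  have hz0 : ∀ j, z j ≠ 0 := fun j => T.y_ne_zero htr hM1 hq1 (hlev j)
  have hzpow : ∀ j, z j ^ q = sq (K * (n - j)) ^ 4 := fun j => T.ypow _ (hlev j)
  have hztr : ∀ j, Transcendental k (z j) := by
    intro j hj
    apply (hstr _ (hlev j)).pow (by norm_num : 0 < 4)
    rw [← hzpow]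
    exact hj.pow q
  set P : L[X] := prodPoly z n with hP
  have hPm : P.Monic := prodPoly_monic _ _
  have hPd : P.natDegree = n := prodPoly_natDegree _ _
  set f : Fin n → L := fun j => P.coeff j with hf
  have hPf : monicOf f = P := (eq_monicOf hPm hPd).symm
  have hval : ∀ i, algebraMap k L (a i) ^ n + ∑ j, f j * algebraMap k L (a i) ^ (j : ℕ) =
      ∏ j ∈ Finset.range n, (algebraMap k L (a i) - z j) := by
    intro i
    rw [← eval_monicOf, hPf, hP, eval_prodPoly]
  have hne : ∀ (b : k) j, algebraMap k L b - z j ≠ 0 := by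
    intro b j h
    apply hztr j
    rw [← sub_eq_zero.1 h]
    exact isAlgebraic_algebraMap b
  have hH : ∀ i, algebraMap k L (a i) ^ n + ∑ j, f j * algebraMap k L (a i) ^ (j : ℕ) ≠ 0 := by
    intro i
    rw [hval]
    exact Finset.prod_ne_zero_iff.2 fun j _ => hne _ j
  -- the point is outside the exceptional set
  have hGf : MvPolynomial.aeval f G ≠ 0 := by
    obtain ⟨w, hw⟩ := exists_pos_ord (transcendental_algebraMap (L := L) htr)
    have hord : ∀ j, ((q * 2 ^ m : ℕ) : ℤ) * w.ord (z j) =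
        (4 * M : ℕ) * w.ord (algebraMap F L t) * ((2 ^ K) ^ (n - (n - j)) : ℕ) := by
      intro j
      have h1 := (T.ord_s_of_pos htr hM1 w hw _ (hlev j)).2
      have h2 := T.ord_y (hlev j) w
      have h3 : (2 : ℤ) ^ m = 2 ^ (K * (n - j)) * (2 ^ K) ^ (n - (n - j)) := by
        rw [← pow_mul, ← pow_add, hm]
        congr 1
        rw [← Nat.mul_add]
        congr 1
        omega
      push_cast
      rw [h3]
      simp only [hz]
      linear_combination (2 ^ (K * (n - j)) * (2 ^ K) ^ (n - (n - j))) * h2 +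
        4 * (2 ^ K) ^ (n - (n - j)) * h1
    have hord' : ∀ j < n, ((q * 2 ^ m : ℕ) : ℤ) * w.ord (z j) =
        (4 * M : ℕ) * w.ord (algebraMap F L t) * ((2 ^ K) ^ j : ℕ) := by
      intro j hj
      rw [hord j]
      congr 3
      omega
    have hinc : ∀ i j, i < j → j < n → w.ord (z i) < w.ord (z j) := by
      intro i j hij hj
      have h1 := hord' i (by omega)
      have h2 := hord' j hj
      have h3 : ((2 ^ K) ^ i : ℕ) < (2 ^ K) ^ j :=
        Nat.pow_lt_pow_right (Nat.one_lt_two_pow (by omega)) hij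
      have h4 : (((2 ^ K) ^ i : ℕ) : ℤ) < (((2 ^ K) ^ j : ℕ) : ℤ) := by exact_mod_cast h3
      have h5 : (0 : ℤ) < (4 * M : ℕ) * w.ord (algebraMap F L t) :=
        mul_pos (by exact_mod_cast (by omega : 0 < 4 * M)) hw
      have h6 : ((q * 2 ^ m : ℕ) : ℤ) * w.ord (z i) < ((q * 2 ^ m : ℕ) : ℤ) * w.ord (z j) := by
        rw [h1, h2]
        exact mul_lt_mul_of_pos_left h4 h5
      exact lt_of_mul_lt_mul_left h6 (by positivity)
    have hcoef := w.ord_coeff_prodPoly z n (fun j _ => hz0 j) hinc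
    refine aeval_ne_zero_of_ord hG (t := t) f (fun j => (hcoef j j.2.le).1)
      (fun i => ∑ j ∈ Finset.range (n - (i : ℕ)), (2 ^ K) ^ j) w hw (q * 2 ^ m) (4 * M)
      ?_ ?_ B hB (by omega)
    · intro i
      have h1 := (hcoef i i.2.le).2
      simp only [hf, hP]
      rw [h1, Finset.mul_sum]
      push_cast
      rw [Finset.mul_sum]
      refine Finset.sum_congr rfl fun j hj => ?_
      rw [Finset.mem_range] at hj
      have h2 := hord' j (by omega)
      push_cast at h2
      exact h2
    · intro a₁ ha₁ b₁ hb₁ hab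
      have hswap : ∀ c₁ : Fin n → ℕ, ∑ i : Fin n, c₁ i * ∑ j ∈ Finset.range (n - (i : ℕ)),
          (2 ^ K) ^ j = ∑ j : Fin n, (∑ i : Fin n, (if (i : ℕ) + j < n then c₁ i else 0)) *
            (2 ^ K) ^ (j : ℕ) := by
        intro c₁
        have h1 : ∀ i : Fin n, c₁ i * ∑ j ∈ Finset.range (n - (i : ℕ)), (2 ^ K) ^ j =
            ∑ j : Fin n, (if (i : ℕ) + j < n then c₁ i else 0) * (2 ^ K) ^ (j : ℕ) := by
          intro i
          rw [Finset.mul_sum, Fin.sum_univ_eq_sum_range
            (fun j => (if (i : ℕ) + j < n then c₁ i else 0) * (2 ^ K) ^ j) n]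
          symm
          rw [← Finset.sum_subset (Finset.range_subset_range.2 (Nat.sub_le n i))]
          · refine Finset.sum_congr rfl fun j hj => ?_
            rw [Finset.mem_range] at hj
            rw [if_pos (by omega)]
          · intro j _ hj
            rw [Finset.mem_range] at hj
            rw [if_neg (by omega), zero_mul]
        rw [Finset.sum_congr rfl fun i _ => h1 i, Finset.sum_comm]
        refine Finset.sum_congr rfl fun j _ => ?_
        rw [Finset.sum_mul]
      rw [hswap a₁, hswap b₁] at hab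
      have hltp : ∀ c₁ ∈ G.support, ∀ j : Fin n,
          (∑ i : Fin n, (if (i : ℕ) + j < n then c₁ i else 0)) < 2 ^ K := by
        intro c₁ hc₁ j
        refine lt_of_le_of_lt (Finset.sum_le_sum fun i _ => ?_) (hdeg c₁ hc₁)
        split_ifs
        · exact le_rfl
        · exact Nat.zero_le _
      have h2 := digits_inj (2 ^ K) n _ _ (hltp a₁ ha₁) (hltp b₁ hb₁) hab
      apply DFunLike.coe_injective
      apply headsums_inj
      intro i
      exact congrFun h2 ⟨n - 1 - i, by have := i.2; omega⟩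
  have hmain := hc L f hH hGf
  have hN0 : 0 < Module.finrank F L := Module.finrank_pos
  have hN : (0 : ℝ) < Module.finrank F L := by exact_mod_cast hN0
  set N : ℝ := ((Module.finrank F L : ℕ) : ℝ) with hNdef
  -- the counting function
  set U := {v : Place k L | (∃ j, v.ord (f j) < 0) ∨ ∃ i, 0 < v.ord (algebraMap k L (a i) ^ n +
    ∑ j, f j * algebraMap k L (a i) ^ (j : ℕ))} with hU
  have hUsub : U ⊆ suppS k (sq 0 ^ 4) := by
    intro v hv
    by_contra hcon
    have hord : ∀ j, v.ord (z j) = 0 ∧ 1 - z j ^ q ≠ 0 ∧ v.ord (1 - z j ^ q) = 0 := by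
      intro j
      have h1 : v ∉ suppS k (sq (K * (n - j)) ^ 4) := by
        rw [T.suppS_eq htr hM1 _ (hlev j)]; exact hcon
      simp only [suppS, Set.mem_ofPred_eq, not_or, not_not] at h1
      rw [← hzpow] at h1
      refine ⟨?_, ?_, h1.2⟩
      · have h2 := h1.1
        rw [v.ord_pow] at h2
        exact (mul_eq_zero.1 h2).resolve_left (by omega)
      · rw [hzpow]
        exact Place.one_sub_four_ne_zero (hstr _ (hlev j))
    rcases hv with ⟨j, hj⟩ | ⟨i, hi⟩
    · have h1 := coeff_prodPoly_mem v z n (fun j _ => v.mem_ge_of_le (hord j).1.ge) j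
      have hj' : v.ord (P.coeff j) < 0 := hj
      have h2 : P.coeff j ≠ 0 := v.ne_zero_of_ord_ne_zero hj'.ne
      have h3 := v.le_ord_of_mem h1 h2
      have h4 : v.ord (P.coeff j) = v.ord ((prodPoly z n).coeff j) := rfl
      omega
    · rw [hval, v.ord_prod _ _ fun j _ => hne _ j, Finset.sum_eq_zero] at hi
      · exact lt_irrefl _ hi
      · intro j _
        exact ord_const_sub v (hord j).1 (hord j).2.1 (hord j).2.2
          ((hA (a i)).1 ⟨i, rfl⟩) (hne _ j)
  have hUcard : (U.ncard : ℝ) ≤ ((suppS k (sq 0 ^ 4)).ncard : ℝ) := by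
    exact_mod_cast Set.ncard_le_ncard hUsub (finite_suppS _)
  -- the height
  have hheight : (n : ℝ) * (4 * (M * (N * ht k t)) / q) ≤
      (htP k (Fin.snoc f 1 : Fin (n + 1) → L) : ℝ) := by
    have h1 := sum_ht_le_htP_prodPoly (k := k) z n
    rw [← hP, ← hPf, coeffVec_monicOf] at h1
    have h2 : ∀ j, (ht k (z j) : ℝ) = 4 * (M * (N * ht k t)) / q := by
      intro j
      have h3 := congrArg (ht k) (hzpow j)
      rw [ht_pow, ht_pow, hhts _ (hlev j)] at h3
      rw [eq_div_iff hq0.ne']
      have h4 : ((q : ℤ) * ht k (z j) : ℝ) = ((4 : ℕ) : ℤ) *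
        (M * ((Module.finrank F L : ℤ) * ht k t)) := by exact_mod_cast h3
      push_cast at h4
      linarith
    have h3 : (∑ j ∈ Finset.range n, (ht k (z j) : ℝ)) ≤
        (htP k (Fin.snoc f 1 : Fin (n + 1) → L) : ℝ) := by exact_mod_cast h1
    refine le_trans (le_of_eq ?_) h3
    rw [Finset.sum_congr rfl fun j _ => h2 j, Finset.sum_const, Finset.card_range, nsmul_eq_mul]
  have hchi := T.chi_bound htr hM1 hq1
  rw [← hAdef] at hchi
  have hchi' : (chi k L : ℝ) + ((suppS k (sq 0 ^ 4)).ncard : ℝ) ≤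
      N * (A + (4 * M + 2) * ht k t) := by
    rw [hNdef]
    exact_mod_cast hchi
  have hlow : -(2 * (N * ht k t)) ≤ (chi k L : ℝ) := by
    have := chi_lower (L := L) htr
    rw [hNdef]
    exact_mod_cast this
  set X : ℝ := (chi k L : ℝ) / N + (U.ncard : ℝ) / N with hX
  have hXup : X ≤ A + (4 * M + 2) * ht k t := by
    rw [hX, ← add_div, div_le_iff₀ hN]
    linarith
  have hXlow : -(2 * (ht k t : ℝ)) ≤ X := by
    have h1 : (0 : ℝ) ≤ U.ncard := by positivity
    rw [hX, ← add_div, le_div_iff₀ hN]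
    linarith
  have hh : (0 : ℝ) < ht k t := by exact_mod_cast hht
  have hY0 : (0 : ℝ) ≤ A + (4 * M + 2) * ht k t := by positivity
  have hCX : C * X ≤ C' * (A + (4 * M + 2) * ht k t) + |C| * (2 * ht k t) := by
    rcases le_total 0 X with h0 | h0
    · have h1 : C * X ≤ C' * X := mul_le_mul_of_nonneg_right (le_max_left _ _) h0
      have h2 : C' * X ≤ C' * (A + (4 * M + 2) * ht k t) := mul_le_mul_of_nonneg_left hXup hC'0
      have h3 : 0 ≤ |C| * (2 * (ht k t : ℝ)) := by positivity
      linarith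
    · have h1 : C * X ≤ |C| * (2 * ht k t) := by
        calc C * X ≤ |C * X| := le_abs_self _
          _ = |C| * |X| := abs_mul _ _
          _ ≤ |C| * (2 * ht k t) := by
            apply mul_le_mul_of_nonneg_left _ (abs_nonneg _)
            rw [abs_of_nonpos h0]
            linarith
      have h2 : 0 ≤ C' * (A + (4 * M + 2) * (ht k t : ℝ)) := mul_nonneg hC'0 hY0
      linarith
  have h4 : (s - n) * (n * (4 * (M * ht k t)) / q) ≤
      ((s : ℝ) - n) * (htP k (Fin.snoc f 1 : Fin (n + 1) → L) : ℝ) / N := by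
    rw [le_div_iff₀ hN, mul_assoc]
    apply mul_le_mul_of_nonneg_left _ hsn.le
    refine le_trans (le_of_eq ?_) hheight
    ring
  have h5 : M * (4 * (n * (s - n) / q - C') * ht k t) ≤
      C' * (A + 2 * ht k t) + |C| * (2 * ht k t) + c - chi k F := by
    have h6 : (s - n) * (n * (4 * (M * ht k t)) / q) =
        M * (4 * (n * (s - n) / q) * (ht k t : ℝ)) := by ring
    have h7 : M * (4 * (n * (s - n) / q - C') * (ht k t : ℝ)) =
        M * (4 * (n * (s - n) / q) * (ht k t : ℝ)) - C' * (4 * M * ht k t) := by ring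
    rw [h7, ← h6]
    have h8 : C' * (A + (4 * M + 2) * (ht k t : ℝ)) = C' * (A + 2 * ht k t) +
      C' * (4 * M * ht k t) := by ring
    linarith
  have h6 : (0 : ℝ) < 4 * (n * (s - n) / q - C') * ht k t := by
    have : (0 : ℝ) < n * (s - n) / q - C' := by linarith
    positivity
  rw [div_lt_iff₀ h6] at hM₀
  have h7 : (M₀ : ℝ) ≤ M := by
    have : M₀ ≤ M := by omega
    exact_mod_cast this
  have h8 : (M₀ : ℝ) * (4 * (n * (s - n) / q - C') * ht k t) ≤
      M * (4 * (n * (s - n) / q - C') * ht k t) :=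
    mul_le_mul_of_nonneg_right h7 h6.le
  linarith

/-- **Theorem.** Let `n ≥ 1`, `s ≥ 2 n`, and let `a_1, …, a_s ∈ k` be distinct. For the pair `(ℙⁿ, D)`
over `F`, where `D` consists of the `r = s + 1` hyperplanes osculating the rational normal curve at
`∞, a_1, …, a_s`, the inequality of Q1 holds with every constant `C ≥ n (r - n - 1) / (r - 2 n)`; and
if `{a_i}` is the set of `0` and the `(r - 2)`-th roots of unity, then it does not hold with any
constant `C < n (r - n - 1) / (r - 2)`. -/
theorem result (k F : Type*) [Field k] [IsAlgClosed k] [CharZero k] [Field F] [Algebra k F]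
    [FunField k F] (n s : ℕ) (hn : 1 ≤ n) (hs : 2 * n ≤ s) (a : Fin s → k)
    (ha : Function.Injective a) (C : ℝ) :
    ((n : ℝ) * (s - n) / (s + 1 - 2 * n) ≤ C → VojtaHolds k F n s a C) ∧
    ((∀ x, (∃ i, a i = x) ↔ x = 0 ∨ x ^ (s - 1) = 1) → VojtaHolds k F n s a C →
      (n : ℝ) * (s - n) / (s - 1) ≤ C) :=
  ⟨fun hC => upper k F hn hs ha hC, fun hA h => lower k F hn hs hA h⟩

end Pool.Agent.Results.MP_4dacf8_ag.OsculatingHyperplanes
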